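import Pool.Agent.R912.GD.Main

/-! # The Gross–Deligne conjecture: one period of each space of Hodge classes suffices -/

namespace Pool.Agent.Results.MP_b23d8d_ag.OnePeriodSuffices

open R912.GD

/-- The Gross–Deligne conjecture for the class `S` is equivalent to the conjunction of its case
for CM abelian varieties (Anderson's theorem) and of the following statement: if `F` is an
imaginary cyclic field and `H` is a space of Hodge classes of type `(c, c)` with multiplication
by `F`, then at least one of the periods `P_σ(H)` is an algebraic multiple of `π ^ c`. -/
theorem result (S : Set HdR) (hS : IsSystem S) :
    GrossDeligne S ↔ Anderson S ∧ CyclicCase S :=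
  equiv hS

end Pool.Agent.Results.MP_b23d8d_ag.OnePeriodSuffices
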